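import Mathlib

set_option autoImplicit false

/-!
# A surviving-relation quotient with torsion

For an abelian group `G` let `𝒫_G` be the set of unordered pairs of elements of `G`. For a set `S` of
pairs let `ℱ_S` be the free abelian group on `S` and `ℛ_S` the set of the elements
`r(g, h, k) = {h, k} + {g, h k} - {g, h} - {g h, k}` all four pairs of which belong to `S`. We show
that for the cyclic group `G` of order `14` there is a set `S` of `31` pairs such that
`ℱ_S / ⟨ℛ_S⟩` has an element of order `2`; in particular it is not a free abelian group.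

The idea: the pairs `{g, h}` are the triangles and the relations `r(g, h, k)` are the boundaries of
the tetrahedra of the bar construction of `G`. A simplicial complex with ordered vertices
`v ↦ x_v ∈ G` is mapped to the bar construction by `(u < v < w) ↦ {x_v - x_u, x_w - x_v}`. The set `S`
is the image of the set of the triangles of the suspension of the real projective plane (with `6 + 2`
vertices), the second homology group of which is cyclic of order `2`.
-/

namespace Pool.Agent.Results.MP_7c4268_al.TorsionQuotient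

open Finsupp

/-- The free abelian group `ℱ_S` with basis a set `S` of unordered pairs of elements of `G`, written
additively. -/
abbrev FreeGroupOn {G : Type} (S : Set (Sym2 G)) : Type := S →₀ ℤ

/-- The set `ℛ_S ⊆ ℱ_S` of the surviving relations: the elements
`r(g, h, k) = {h, k} + {g, hk} - {g, h} - {gh, k}` for which all four pairs belong to `S`. -/
def survivingRelations {G : Type} [CommGroup G] (S : Set (Sym2 G)) : Set (FreeGroupOn S) :=
  {x | ∃ (g h k : G) (h1 : s(g, h) ∈ S) (h2 : s(g * h, k) ∈ S) (h3 : s(h, k) ∈ S)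
    (h4 : s(g, h * k) ∈ S),
    x = single (⟨s(h, k), h3⟩ : S) (1 : ℤ) + single (⟨s(g, h * k), h4⟩ : S) (1 : ℤ) -
      single (⟨s(g, h), h1⟩ : S) (1 : ℤ) - single (⟨s(g * h, k), h2⟩ : S) (1 : ℤ)}

/-- The abelian group `ℱ_S / ⟨ℛ_S⟩`. -/
abbrev SurvivingQuotient {G : Type} [CommGroup G] (S : Set (Sym2 G)) : Type :=
  FreeGroupOn S ⧸ Submodule.span ℤ (survivingRelations S)

/-- The cyclic group of order `14`. -/
abbrev G14 : Type := Multiplicative (ZMod 14)

/-- The element `a` of the cyclic group of order `14`. -/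
def c (a : ℕ) : G14 := Multiplicative.ofAdd (a : ZMod 14)

/-- The unordered pair `{a, b}` of elements of the cyclic group of order `14`. -/
def P (a b : ℕ) : Sym2 G14 := s(c a, c b)

/-- The set `S`. -/
def Sfin : Finset (Sym2 G14) :=
  {P 1 1, P 1 4, P 1 6, P 1 7, P 1 10, P 1 11, P 2 6, P 2 10, P 3 3, P 3 6, P 3 7, P 3 8, P 3
    9, P 3 13, P 4 8, P 4 9, P 4 12, P 5 7, P 5 11, P 6 6, P 6 7, P 6 10, P 7 9, P 7 13, P 8 9,
    P 8 13, P 9 10, P 9 11, P 9 13, P 10 10, P 13 13}

/-- The pairs where the functional is nonzero. -/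
def Tfin : Finset (Sym2 G14) :=
  {P 3 7, P 3 8, P 6 10, P 9 11, P 10 10}

/-- The functional modulo `2`. -/
def chi (p : Sym2 G14) : ZMod 2 := if p ∈ Tfin then 1 else 0

theorem chi_rel : ∀ g h k : ZMod 14, s(Multiplicative.ofAdd g, Multiplicative.ofAdd h) ∈ Sfin →
    s(Multiplicative.ofAdd g * Multiplicative.ofAdd h, Multiplicative.ofAdd k) ∈ Sfin →
    s(Multiplicative.ofAdd h, Multiplicative.ofAdd k) ∈ Sfin →
    s(Multiplicative.ofAdd g, Multiplicative.ofAdd h * Multiplicative.ofAdd k) ∈ Sfin →
    chi s(Multiplicative.ofAdd h, Multiplicative.ofAdd k) +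
      chi s(Multiplicative.ofAdd g, Multiplicative.ofAdd h * Multiplicative.ofAdd k) -
      chi s(Multiplicative.ofAdd g, Multiplicative.ofAdd h) -
      chi s(Multiplicative.ofAdd g * Multiplicative.ofAdd h, Multiplicative.ofAdd k) = 0 := by
  decide +kernel

/-- The element of `ℱ_S` given by a pair. -/
noncomputable def e (p : Sym2 G14) : FreeGroupOn (Sfin : Set (Sym2 G14)) :=
  if h : p ∈ (Sfin : Set (Sym2 G14)) then single (⟨p, h⟩ : (Sfin : Set (Sym2 G14))) (1 : ℤ) else 0

theorem e_of_mem {p : Sym2 G14} (h : p ∈ (Sfin : Set (Sym2 G14))) :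
    e p = single (⟨p, h⟩ : (Sfin : Set (Sym2 G14))) (1 : ℤ) := dif_pos h

theorem key (g h k : G14) (p1 p2 p3 p4 : Sym2 G14) (e1 : p1 = s(g, h)) (e2 : p2 = s(g * h, k))
    (e3 : p3 = s(h, k)) (e4 : p4 = s(g, h * k)) (h1 : p1 ∈ Sfin) (h2 : p2 ∈ Sfin) (h3 : p3 ∈ Sfin)
    (h4 : p4 ∈ Sfin) : e p3 + e p4 - e p1 - e p2 ∈
      Submodule.span ℤ (survivingRelations (Sfin : Set (Sym2 G14))) := by
  subst e1 e2 e3 e4
  refine Submodule.subset_span ⟨g, h, k, h1, h2, h3, h4, ?_⟩
  rw [e_of_mem h1, e_of_mem h2, e_of_mem h3, e_of_mem h4]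

/-- The functional on `ℱ_S`. -/
noncomputable def chiL : FreeGroupOn (Sfin : Set (Sym2 G14)) →ₗ[ℤ] ZMod 2 :=
  Finsupp.linearCombination ℤ fun p : (Sfin : Set (Sym2 G14)) => chi p.1

theorem chiL_e {p : Sym2 G14} (h : p ∈ Sfin) : chiL (e p) = chi p := by
  rw [e_of_mem h, chiL, Finsupp.linearCombination_single, one_smul]

theorem chiL_span {x : FreeGroupOn (Sfin : Set (Sym2 G14))}
    (hx : x ∈ Submodule.span ℤ (survivingRelations (Sfin : Set (Sym2 G14)))) : chiL x = 0 := by
  have h1 : Submodule.span ℤ (survivingRelations (Sfin : Set (Sym2 G14))) ≤ LinearMap.ker chiL := by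
    rw [Submodule.span_le]
    rintro _ ⟨g, h, k, h1, h2, h3, h4, rfl⟩
    rw [SetLike.mem_coe, LinearMap.mem_ker, map_sub, map_sub, map_add]
    simp only [chiL, Finsupp.linearCombination_single, one_smul]
    exact chi_rel g.toAdd h.toAdd k.toAdd h1 h2 h3 h4
  exact LinearMap.mem_ker.1 (h1 hx)

/-- Twice this element is a combination of surviving relations. -/
noncomputable def v : FreeGroupOn (Sfin : Set (Sym2 G14)) :=
  e (P 4 8) - e (P 1 11) - e (P 4 12) + e (P 3 3) + e (P 7 13) + e (P 1 6) - e (P 3 7) - e (P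
    1 10) + e (P 1 7) - e (P 2 6) + e (P 9 13) - e (P 13 13) - e (P 3 9) - e (P 2 10) + e (P 10
    10) + 2 • e (P 6 6) - e (P 6 10)

theorem two_v : (2 : ℤ) • v ∈ Submodule.span ℤ (survivingRelations (Sfin : Set (Sym2 G14))) := by
  have k0 := key (c 4) (c 1) (c 7) (P 1 4) (P 5 7) (P 1 7) (P 4 8) (by decide) (by decide) (by decide)
    (by decide) (by decide) (by decide) (by decide) (by decide)
  have k1 := key (c 4) (c 1) (c 11) (P 1 4) (P 5 11) (P 1 11) (P 4 12) (by decide) (by decide) (by decide)
    (by decide) (by decide) (by decide) (by decide) (by decide)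
  have k2 := key (c 10) (c 9) (c 7) (P 9 10) (P 5 7) (P 7 9) (P 2 10) (by decide) (by decide) (by decide)
    (by decide) (by decide) (by decide) (by decide) (by decide)
  have k3 := key (c 10) (c 9) (c 11) (P 9 10) (P 5 11) (P 9 11) (P 6 10) (by decide) (by decide) (by decide)
    (by decide) (by decide) (by decide) (by decide) (by decide)
  have k4 := key (c 9) (c 8) (c 13) (P 8 9) (P 3 13) (P 8 13) (P 7 9) (by decide) (by decide) (by decide)
    (by decide) (by decide) (by decide) (by decide) (by decide)
  have k5 := key (c 9) (c 8) (c 3) (P 8 9) (P 3 3) (P 3 8) (P 9 11) (by decide) (by decide) (by decide)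
    (by decide) (by decide) (by decide) (by decide) (by decide)
  have k6 := key (c 1) (c 7) (c 13) (P 1 7) (P 8 13) (P 7 13) (P 1 6) (by decide) (by decide) (by decide)
    (by decide) (by decide) (by decide) (by decide) (by decide)
  have k7 := key (c 1) (c 7) (c 3) (P 1 7) (P 3 8) (P 3 7) (P 1 10) (by decide) (by decide) (by decide)
    (by decide) (by decide) (by decide) (by decide) (by decide)
  have k8 := key (c 1) (c 1) (c 6) (P 1 1) (P 2 6) (P 1 6) (P 1 7) (by decide) (by decide) (by decide)
    (by decide) (by decide) (by decide) (by decide) (by decide)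
  have k9 := key (c 1) (c 1) (c 10) (P 1 1) (P 2 10) (P 1 10) (P 1 11) (by decide) (by decide) (by decide)
    (by decide) (by decide) (by decide) (by decide) (by decide)
  have k10 := key (c 4) (c 9) (c 13) (P 4 9) (P 13 13) (P 9 13) (P 4 8) (by decide) (by decide) (by decide)
    (by decide) (by decide) (by decide) (by decide) (by decide)
  have k11 := key (c 4) (c 9) (c 3) (P 4 9) (P 3 13) (P 3 9) (P 4 12) (by decide) (by decide) (by decide)
    (by decide) (by decide) (by decide) (by decide) (by decide)
  have k12 := key (c 10) (c 10) (c 6) (P 10 10) (P 6 6) (P 6 10) (P 2 10) (by decide) (by decide) (by decide)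
    (by decide) (by decide) (by decide) (by decide) (by decide)
  have k13 := key (c 10) (c 10) (c 10) (P 10 10) (P 6 10) (P 10 10) (P 6 10) (by decide) (by decide) (by decide)
    (by decide) (by decide) (by decide) (by decide) (by decide)
  have k14 := key (c 6) (c 3) (c 13) (P 3 6) (P 9 13) (P 3 13) (P 2 6) (by decide) (by decide) (by decide)
    (by decide) (by decide) (by decide) (by decide) (by decide)
  have k15 := key (c 6) (c 3) (c 3) (P 3 6) (P 3 9) (P 3 3) (P 6 6) (by decide) (by decide) (by decide)
    (by decide) (by decide) (by decide) (by decide) (by decide)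
  have k16 := key (c 6) (c 7) (c 13) (P 6 7) (P 13 13) (P 7 13) (P 6 6) (by decide) (by decide) (by decide)
    (by decide) (by decide) (by decide) (by decide) (by decide)
  have k17 := key (c 6) (c 7) (c 3) (P 6 7) (P 3 13) (P 3 7) (P 6 10) (by decide) (by decide) (by decide)
    (by decide) (by decide) (by decide) (by decide) (by decide)
  have k18 := key (c 6) (c 10) (c 6) (P 6 10) (P 2 6) (P 6 10) (P 2 6) (by decide) (by decide) (by decide)
    (by decide) (by decide) (by decide) (by decide) (by decide)
  have k19 := key (c 6) (c 10) (c 10) (P 6 10) (P 2 10) (P 10 10) (P 6 6) (by decide) (by decide) (by decide)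
    (by decide) (by decide) (by decide) (by decide) (by decide)
  have h := (Submodule.add_mem _ (Submodule.sub_mem _ (Submodule.sub_mem _ (Submodule.add_mem _
    (Submodule.add_mem _ (Submodule.sub_mem _ (Submodule.add_mem _ (Submodule.sub_mem _
    (Submodule.sub_mem _ (Submodule.add_mem _ (Submodule.sub_mem _ (Submodule.add_mem _
    (Submodule.sub_mem _ (Submodule.add_mem _ (Submodule.sub_mem _ (Submodule.add_mem _
    (Submodule.add_mem _ (Submodule.sub_mem _ (Submodule.sub_mem _ k0 k1) k2) k3) k4) k5) k6)
    k7) k8) k9) k10) k11) k12) k13) k14) k15) k16) k17) k18) k19)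
  convert h using 1
  unfold v
  module

theorem v_not_mem : v ∉ Submodule.span ℤ (survivingRelations (Sfin : Set (Sym2 G14))) := by
  intro h
  have h1 := chiL_span h
  unfold v at h1
  simp only [map_add, map_sub, map_nsmul] at h1
  rw [chiL_e (p := P 4 8) (by decide), chiL_e (p := P 1 11) (by decide), chiL_e (p := P 4 12) (by
    decide), chiL_e (p := P 3 3) (by decide), chiL_e (p := P 7 13) (by decide), chiL_e (p := P 1
    6) (by decide), chiL_e (p := P 3 7) (by decide), chiL_e (p := P 1 10) (by decide), chiL_e (p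
    := P 1 7) (by decide), chiL_e (p := P 2 6) (by decide), chiL_e (p := P 9 13) (by decide),
    chiL_e (p := P 13 13) (by decide), chiL_e (p := P 3 9) (by decide), chiL_e (p := P 2 10) (by
    decide), chiL_e (p := P 10 10) (by decide), chiL_e (p := P 6 6) (by decide), chiL_e (p := P
    6 10) (by decide)] at h1
  revert h1
  decide +kernel

/-- There are a finite abelian group `G` (cyclic of order `14`) and a set `S` of unordered pairs of
elements of `G` such that `ℱ_S / ⟨ℛ_S⟩` has an element of order `2`. In particular it is not a free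
abelian group. -/
theorem result : ∃ (G : Type) (_ : CommGroup G) (S : Set (Sym2 G)), IsCyclic G ∧ Nat.card G = 14 ∧
    (∃ q : SurvivingQuotient S, q ≠ 0 ∧ q + q = 0) ∧ ¬ Module.Free ℤ (SurvivingQuotient S) := by
  have hq : ∃ q : SurvivingQuotient (Sfin : Set (Sym2 G14)), q ≠ 0 ∧ q + q = 0 := by
    refine ⟨Submodule.Quotient.mk v, ?_, ?_⟩
    · rw [Ne, Submodule.Quotient.mk_eq_zero]
      exact v_not_mem
    · rw [← Submodule.Quotient.mk_add, Submodule.Quotient.mk_eq_zero, ← two_smul ℤ]
      exact two_v
  refine ⟨G14, inferInstance, Sfin, inferInstance, ?_, hq, ?_⟩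
  · simp [G14]
  · intro hfree
    obtain ⟨q, hq0, hq2⟩ := hq
    have h2 : (2 : ℤ) • q = 0 := by rw [two_smul]; exact hq2
    rcases smul_eq_zero.1 h2 with h | h
    · norm_num at h
    · exact hq0 h

end Pool.Agent.Results.MP_7c4268_al.TorsionQuotient
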